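import Mathlib

set_option autoImplicit false

namespace Pool.Agent.Results.MP_75988d_co.Disproof

/-- `w` is the one-line notation of a signed permutation of size `n`: the entries are nonzero
integers of absolute value at most `n`, and no absolute value occurs twice. -/
def IsSignedPerm (n : ℕ) (w : Fin n → ℤ) : Prop :=
  (∀ i, w i ≠ 0 ∧ |w i| ≤ (n : ℤ)) ∧ ∀ i j, |w i| = |w j| → i = j

/-- The reversals of size `n`: pairs of positions `i ≤ j` (numbered from `0`). -/
abbrev Rev (n : ℕ) : Type := {p : Fin n × Fin n // p.1 ≤ p.2}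

/-- Apply a reversal: the block in positions `i, …, j` is reversed and its signs are changed. -/
def act {n : ℕ} (w : Fin n → ℤ) (r : Rev n) : Fin n → ℤ := fun k =>
  if h : r.1.1 ≤ k ∧ k ≤ r.1.2 then
    - w ⟨(r.1.1 : ℕ) + (r.1.2 : ℕ) - (k : ℕ), by
      have h1 : (r.1.1 : ℕ) ≤ (k : ℕ) := h.1
      have h2 : (k : ℕ) ≤ (r.1.2 : ℕ) := h.2
      have h3 := r.1.2.isLt
      omega⟩
  else w k

/-- The sequence `s` of reversals sorts `w` into the identity `(1, 2, …, n)`. -/
def Sorts {n : ℕ} (w : Fin n → ℤ) (s : List (Rev n)) : Prop :=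
  s.foldl act w = fun i : Fin n => ((i : ℕ) : ℤ) + 1

/-- An optimal scenario: a sorting sequence of least possible length. -/
def Optimal {n : ℕ} (w : Fin n → ℤ) (s : List (Rev n)) : Prop :=
  Sorts w s ∧ ∀ s' : List (Rev n), Sorts w s' → s.length ≤ s'.length

/-- The number of indices in which two scenarios (of the same length) differ. -/
def diffs {n : ℕ} (s s' : List (Rev n)) : ℕ :=
  (List.zip s s').countP (fun q => decide (q.1 ≠ q.2))

/-- The graph on the optimal scenarios of `w`; two different optimal scenarios are adjacent if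
they differ in at most `4` positions. -/
def G4 {n : ℕ} (w : Fin n → ℤ) : SimpleGraph {s : List (Rev n) // Optimal w s} :=
  SimpleGraph.fromRel (fun s s' => diffs s.1 s'.1 ≤ 4)

/-! computation -/

def flipL (i j : ℕ) (l : List ℤ) : List ℤ :=
  l.take i ++ (((l.drop i).take (j + 1 - i)).reverse.map (fun x => -x) ++ l.drop (j + 1))

def revs5 : List (ℕ × ℕ) :=
  [(0,0),(0,1),(0,2),(0,3),(0,4),(1,1),(1,2),(1,3),(1,4),(2,2),(2,3),(2,4),(3,3),(3,4),(4,4)]

def idL : List ℤ := [1,2,3,4,5]

def code (l : List ℤ) : ℕ := l.foldl (fun a x => 11 * a + (x + 5).toNat) 0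

def layer : ℕ → List (List ℤ)
  | 0 => [idL]
  | k + 1 => (layer k).flatMap (fun q => revs5.map (fun r => flipL r.1 r.2 q))

def mask (k : ℕ) : ℕ := (layer k).foldl (fun m q => m ||| (1 <<< code q)) 0

/-- all sequences of `k` reversals that sort `q` -/
def enum : ℕ → List ℤ → List (List (ℕ × ℕ))
  | 0, q => if code q = code idL then [[]] else []
  | k + 1, q => revs5.flatMap (fun r =>
      let q' := flipL r.1 r.2 q
      if k ≤ 3 then
        (if (mask k).testBit (code q') then (enum k q').map (fun s => r :: s) else [])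
      else (enum k q').map (fun s => r :: s))

theorem flipL_flipL (a b c d e : ℤ) (r : ℕ × ℕ) (hr : r ∈ revs5) :
    flipL r.1 r.2 (flipL r.1 r.2 [a,b,c,d,e]) = [a,b,c,d,e] := by
  simp only [revs5, List.mem_cons, List.not_mem_nil, or_false] at hr
  rcases hr with h|h|h|h|h|h|h|h|h|h|h|h|h|h|h <;> subst h <;> simp [flipL]

theorem flipL_form (a b c d e : ℤ) (r : ℕ × ℕ) (hr : r ∈ revs5) :
    ∃ a' b' c' d' e' : ℤ, flipL r.1 r.2 [a,b,c,d,e] = [a',b',c',d',e'] := by
  simp only [revs5, List.mem_cons, List.not_mem_nil, or_false] at hr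
  rcases hr with h|h|h|h|h|h|h|h|h|h|h|h|h|h|h <;> subst h <;> simp [flipL]

theorem mem_layer : ∀ (s : List (ℕ × ℕ)) (a b c d e : ℤ), (∀ r ∈ s, r ∈ revs5) →
    s.foldl (fun q r => flipL r.1 r.2 q) [a,b,c,d,e] = idL → [a,b,c,d,e] ∈ layer s.length := by
  intro s
  induction s with
  | nil => intro a b c d e _ h; simpa [layer] using h
  | cons r s ih =>
    intro a b c d e hs h
    have hr : r ∈ revs5 := hs r (by simp)
    obtain ⟨a', b', c', d', e', hf⟩ := flipL_form a b c d e r hr
    simp only [List.foldl_cons] at h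
    rw [hf] at h
    have h1 := ih a' b' c' d' e' (fun x hx => hs x (by simp [hx])) h
    simp only [List.length_cons, layer, List.mem_flatMap, List.mem_map]
    refine ⟨_, h1, r, hr, ?_⟩
    rw [← hf]
    exact flipL_flipL a b c d e r hr

theorem testBit_foldl (L : List (List ℤ)) : ∀ (m i : ℕ), (m.testBit i = true ∨ ∃ q ∈ L, code q = i) →
    (L.foldl (fun m q => m ||| (1 <<< code q)) m).testBit i = true := by
  induction L with
  | nil => intro m i h; simpa using h
  | cons q L ih =>
    intro m i h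
    simp only [List.foldl_cons]
    apply ih
    rcases h with h | ⟨p, hp, h⟩
    · left; simp [Nat.testBit_or, h]
    · rcases List.mem_cons.1 hp with rfl | hp
      · left
        rw [Nat.testBit_or, h]
        simp [Nat.testBit_shiftLeft]
      · right; exact ⟨p, hp, h⟩

theorem mem_enum : ∀ (s : List (ℕ × ℕ)) (a b c d e : ℤ), (∀ r ∈ s, r ∈ revs5) →
    s.foldl (fun q r => flipL r.1 r.2 q) [a,b,c,d,e] = idL → s ∈ enum s.length [a,b,c,d,e] := by
  intro s
  induction s with
  | nil => intro a b c d e _ h; simp only [List.foldl_nil] at h; simp [enum, h]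
  | cons r s ih =>
    intro a b c d e hs h
    have hr : r ∈ revs5 := hs r (by simp)
    have hs' : ∀ x ∈ s, x ∈ revs5 := fun x hx => hs x (by simp [hx])
    obtain ⟨a', b', c', d', e', hf⟩ := flipL_form a b c d e r hr
    simp only [List.foldl_cons] at h
    rw [hf] at h
    have h1 := ih a' b' c' d' e' hs' h
    have h2 := mem_layer s a' b' c' d' e' hs' h
    have h3 : (mask s.length).testBit (code [a',b',c',d',e']) = true :=
      testBit_foldl _ _ _ (Or.inr ⟨_, h2, rfl⟩)
    simp only [List.length_cons, enum, List.mem_flatMap]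
    refine ⟨r, hr, ?_⟩
    rw [hf]
    split_ifs
    · exact List.mem_map.2 ⟨s, h1, rfl⟩
    · exact List.mem_map.2 ⟨s, h1, rfl⟩

/-- the first class of optimal scenarios -/
def A : List (List (ℕ × ℕ)) :=
  [[(0,1),(1,2),(2,3),(3,4),(0,3)], [(0,1),(1,4),(0,1),(1,2),(2,3)],
   [(0,3),(1,4),(0,3),(1,4),(0,3)], [(0,3),(3,4),(2,3),(1,2),(0,1)],
   [(2,3),(1,2),(0,1),(1,4),(0,1)], [(2,3),(3,4),(0,3),(3,4),(2,3)]]

/-- the second class of optimal scenarios -/
def B : List (List (ℕ × ℕ)) :=
  [[(1,2),(0,1),(1,4),(0,1),(1,2)], [(1,2),(2,3),(3,4),(0,3),(3,4)],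
   [(1,4),(0,1),(1,2),(2,3),(3,4)], [(1,4),(0,3),(1,4),(0,3),(1,4)],
   [(3,4),(0,3),(3,4),(2,3),(1,2)], [(3,4),(2,3),(1,2),(0,1),(1,4)]]

theorem enum5 : ((enum 5 [5,4,3,2,1]).all (fun s => (A ++ B).contains s)) = true := by
  decide +kernel

theorem enum_lt5 : enum 0 [5,4,3,2,1] = [] ∧ enum 1 [5,4,3,2,1] = [] ∧ enum 2 [5,4,3,2,1] = [] ∧
    enum 3 [5,4,3,2,1] = [] ∧ enum 4 [5,4,3,2,1] = [] := by
  decide +kernel


def pr (r : Rev 5) : ℕ × ℕ := (r.1.1, r.1.2)

theorem pr_inj : Function.Injective pr := by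
  intro r s h
  simp only [pr, Prod.mk.injEq] at h
  exact Subtype.ext (Prod.ext (Fin.ext h.1) (Fin.ext h.2))

theorem pr_mem (r : Rev 5) : pr r ∈ revs5 := by
  revert r; decide

theorem ofFn_act (w : Fin 5 → ℤ) (r : Rev 5) :
    List.ofFn (act w r) = flipL (pr r).1 (pr r).2 (List.ofFn w) := by
  obtain ⟨⟨i, j⟩, h⟩ := r
  fin_cases i <;> fin_cases j <;> first
    | (exfalso; revert h; decide)
    | (simp [act, flipL, pr, List.ofFn_succ, Fin.le_def])

theorem ofFn_foldl (s : List (Rev 5)) : ∀ (w : Fin 5 → ℤ),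
    List.ofFn (s.foldl act w) =
      (s.map pr).foldl (fun q r => flipL r.1 r.2 q) (List.ofFn w) := by
  induction s with
  | nil => intro w; rfl
  | cons r s ih => intro w; simp only [List.foldl_cons, List.map_cons]; rw [ih, ofFn_act]

/-- the signed permutation `(5, 4, 3, 2, 1)` -/
def w5 : Fin 5 → ℤ := ![5, 4, 3, 2, 1]

theorem sorts_iff (s : List (Rev 5)) : Sorts w5 s ↔
    (s.map pr).foldl (fun q r => flipL r.1 r.2 q) [5,4,3,2,1] = idL := by
  have h1 : List.ofFn w5 = [5,4,3,2,1] := by simp [w5, List.ofFn_succ]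
  have h2 : List.ofFn (fun i : Fin 5 => ((i : ℕ) : ℤ) + 1) = idL := by
    simp [idL, List.ofFn_succ]
  unfold Sorts
  rw [← h1, ← ofFn_foldl, ← h2, List.ofFn_inj]

theorem sorts_mem (s : List (Rev 5)) (h : Sorts w5 s) :
    s.map pr ∈ enum s.length [5,4,3,2,1] := by
  have := mem_enum (s.map pr) 5 4 3 2 1 (by
    intro r hr
    obtain ⟨x, _, rfl⟩ := List.mem_map.1 hr
    exact pr_mem x) ((sorts_iff s).1 h)
  simpa using this

theorem sorts_length (s : List (Rev 5)) (h : Sorts w5 s) : 5 ≤ s.length := by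
  by_contra hc
  have h1 := sorts_mem s h
  obtain ⟨e0, e1, e2, e3, e4⟩ := enum_lt5
  have : s.length = 0 ∨ s.length = 1 ∨ s.length = 2 ∨ s.length = 3 ∨ s.length = 4 := by omega
  rcases this with h2 | h2 | h2 | h2 | h2 <;> rw [h2] at h1
  · rw [e0] at h1; simp at h1
  · rw [e1] at h1; simp at h1
  · rw [e2] at h1; simp at h1
  · rw [e3] at h1; simp at h1
  · rw [e4] at h1; simp at h1

/-- an optimal scenario in the first class -/
def sA : List (Rev 5) :=
  [⟨(0,1), by decide⟩, ⟨(1,2), by decide⟩, ⟨(2,3), by decide⟩, ⟨(3,4), by decide⟩,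
    ⟨(0,3), by decide⟩]

/-- an optimal scenario in the second class -/
def sB : List (Rev 5) :=
  [⟨(1,2), by decide⟩, ⟨(2,3), by decide⟩, ⟨(3,4), by decide⟩, ⟨(0,3), by decide⟩,
    ⟨(3,4), by decide⟩]

theorem sA_sorts : Sorts w5 sA := by
  rw [sorts_iff]; decide +kernel

theorem sB_sorts : Sorts w5 sB := by
  rw [sorts_iff]; decide +kernel

theorem sA_opt : Optimal w5 sA := ⟨sA_sorts, fun s' h => sorts_length s' h⟩

theorem sB_opt : Optimal w5 sB := ⟨sB_sorts, fun s' h => sorts_length s' h⟩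

theorem opt_mem (s : List (Rev 5)) (h : Optimal w5 s) : s.map pr ∈ A ∨ s.map pr ∈ B := by
  have h1 : s.length = 5 := le_antisymm (h.2 sA sA_sorts) (sorts_length s h.1)
  have h2 := sorts_mem s h.1
  rw [h1] at h2
  have h3 := List.all_eq_true.1 enum5 _ h2
  have h4 : s.map pr ∈ A ++ B := by simpa using h3
  exact List.mem_append.1 h4

theorem diffs_pr (s s' : List (Rev 5)) : diffs s s' =
    (List.zip (s.map pr) (s'.map pr)).countP (fun q => decide (q.1 ≠ q.2)) := by
  unfold diffs
  rw [List.zip_map, List.countP_map]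
  congr 1
  funext q
  simp [pr_inj.eq_iff]

theorem cross : ∀ a ∈ A, ∀ b ∈ B,
    ¬ (List.zip a b).countP (fun q => decide (q.1 ≠ q.2)) ≤ 4 ∧
    ¬ (List.zip b a).countP (fun q => decide (q.1 ≠ q.2)) ≤ 4 := by
  decide +kernel

theorem stay (s s' : {s : List (Rev 5) // Optimal w5 s}) (h : (G4 w5).Adj s s')
    (hs : s.1.map pr ∈ A) : s'.1.map pr ∈ A := by
  rcases opt_mem s'.1 s'.2 with h1 | h1
  · exact h1
  · exfalso
    have h2 := cross _ hs _ h1
    unfold G4 at h
    rw [SimpleGraph.fromRel_adj] at h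
    rcases h.2 with h3 | h3
    · rw [diffs_pr] at h3; exact h2.1 h3
    · rw [diffs_pr] at h3; exact h2.2 h3

theorem stay_reach (s s' : {s : List (Rev 5) // Optimal w5 s}) (h : (G4 w5).Reachable s s')
    (hs : s.1.map pr ∈ A) : s'.1.map pr ∈ A := by
  obtain ⟨p⟩ := h
  induction p with
  | nil => exact hs
  | cons hadj _ ih => exact ih (stay _ _ hadj hs)

/-- There are a signed permutation and two optimal scenarios for it that are not joined by any
chain of optimal scenarios in which consecutive members differ in at most `4` positions. -/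
theorem result : ∃ (n : ℕ) (w : Fin n → ℤ), 1 ≤ n ∧ IsSignedPerm n w ∧
    ∃ s s' : {s : List (Rev n) // Optimal w s}, ¬ (G4 w).Reachable s s' := by
  refine ⟨5, w5, by norm_num, ?_, ⟨sA, sA_opt⟩, ⟨sB, sB_opt⟩, ?_⟩
  · refine ⟨?_, ?_⟩
    · intro i; fin_cases i <;> simp [w5]
    · intro i j; fin_cases i <;> fin_cases j <;> simp [w5]
  · intro h
    have h1 := stay_reach _ _ h (by decide +kernel)
    revert h1
    decide +kernel

end Pool.Agent.Results.MP_75988d_co.Disproof
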